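import Mathlib

/-!
# MP_4d2e3d_co: representability of a `q`-matroid is not visible on its projectivization

Let `F` be a finite field with `q` elements and let `K` be an extension of `F` of degree `m ≥ 3`.
Let `L` be the extension of degree `m - 1` and let `M` be the `q`-matroid on the `F`-space `L ^ 2`
given by `ρ(V) = dim_L (L V)` (the `q`-matroid of a Desarguesian spread). The simplification of its
projectivization is `U_{2, q ^ (m - 1) + 1}`, which is representable over `K`. In a representation
of `M` over `K`, every one of the `q ^ m + 1` one-dimensional subspaces of `K ^ 2` would contain an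
element of the image of `L ^ 2`, for dimension reasons, while `M` has only `q ^ (m - 1) + 1`
classes of parallel points.
-/

set_option autoImplicit false

namespace Pool.Agent.Results.MP_4d2e3d_co.EveryFieldDegreeThree

open Module LinearAlgebra.Projectivization

/-- A `q`-matroid on the finite-dimensional `F`-space `E`. -/
structure QMatroid (F E : Type) [Field F] [AddCommGroup E] [Module F E] where
  /-- the rank function -/
  rk : Submodule F E → ℕ
  rk_le : ∀ V : Submodule F E, rk V ≤ finrank F V
  mono : ∀ U V : Submodule F E, U ≤ V → rk U ≤ rk V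
  submodular : ∀ U V : Submodule F E, rk (U ⊔ V) + rk (U ⊓ V) ≤ rk U + rk V

/-- The rank function of the projectivization matroid `P(M)`: the rank of a set `A` of
one-dimensional subspaces is the rank of their span. -/
def projRank {F E : Type} [Field F] [AddCommGroup E] [Module F E] (M : QMatroid F E)
    (A : Set (ℙ F E)) : ℕ :=
  M.rk (⨆ p ∈ A, p.submodule)

/-- A matroid on `S` with rank function `r` is representable over `K`: up to a bijection of `S` with
the set of columns, `r A` is the rank of the columns indexed by `A` of some matrix over `K`. -/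
def MatroidRepresentable (K : Type) [Field K] {S : Type} (r : Set S → ℕ) : Prop :=
  ∃ (k N : ℕ) (G : Matrix (Fin k) (Fin N) K) (e : S ≃ Fin N),
    ∀ A : Set S, r A = finrank K (Submodule.span K ((fun a => G.col (e a)) '' A))

/-- A `q`-matroid `M` on `E` is representable over the extension field `K` of `F`: up to an
`F`-linear bijection `e` from `E` to `F ^ n`, the rank of `V` is the rank over `K` of `G * Y` for
every matrix `Y` over `F` whose column space is `V`. -/
def QMatroid.Representable (K : Type) [Field K] {F E : Type} [Field F] [AddCommGroup E]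
    [Module F E] [Algebra F K] (M : QMatroid F E) : Prop :=
  ∃ (k n : ℕ) (G : Matrix (Fin k) (Fin n) K) (e : E ≃ₗ[F] (Fin n → F)),
    ∀ (V : Submodule F E) (s : ℕ) (Y : Matrix (Fin n) (Fin s) F),
      Submodule.span F (Set.range Y.col) = V.map e.toLinearMap →
        M.rk V = (G * Y.map (algebraMap F K)).rank

/-! ### Sets of points on a projective line -/

open Classical in
theorem finrank_iSup (L : Type) [Field L] (S : Set (ℙ L (Fin 2 → L))) :
    finrank L (⨆ x ∈ S, x.submodule : Submodule L (Fin 2 → L)) =
      if S = ∅ then 0 else if S.Subsingleton then 1 else 2 := by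
  split_ifs with h0 h1
  · have h : (⨆ x ∈ S, x.submodule : Submodule L (Fin 2 → L)) = ⊥ := by
      rw [h0]
      simp
    rw [h]
    exact finrank_bot L _
  · obtain ⟨x, hx⟩ := Set.nonempty_iff_ne_empty.2 h0
    have h : (⨆ x ∈ S, x.submodule : Submodule L (Fin 2 → L)) = x.submodule := by
      rw [Set.Subsingleton.eq_singleton_of_mem h1 hx]
      simp
    rw [h]
    exact Projectivization.finrank_submodule x
  · have h2 : finrank L (⨆ x ∈ S, x.submodule : Submodule L (Fin 2 → L)) ≤ 2 := by
      have := Submodule.finrank_le (⨆ x ∈ S, x.submodule : Submodule L (Fin 2 → L))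
      simpa using this
    rw [Set.not_subsingleton_iff] at h1
    obtain ⟨x, hx, y, hy, hxy⟩ := h1
    have hle : ∀ z ∈ S, z.submodule ≤ (⨆ x ∈ S, x.submodule : Submodule L (Fin 2 → L)) :=
      fun z hz => le_iSup₂_of_le z hz le_rfl
    by_contra hne
    have h3 : finrank L (⨆ x ∈ S, x.submodule : Submodule L (Fin 2 → L)) ≤ 1 := by omega
    have h4 : ∀ z ∈ S, z.submodule = (⨆ x ∈ S, x.submodule : Submodule L (Fin 2 → L)) :=
      fun z hz => Submodule.eq_of_le_of_finrank_le (hle z hz) (by
        rw [Projectivization.finrank_submodule]; exact h3)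
    exact hxy (Projectivization.submodule_injective ((h4 x hx).trans (h4 y hy).symm))

/-! ### The `q`-matroid of a Desarguesian spread -/

section Spread

variable (F L : Type) [Field F] [Field L] [Algebra F L]

/-- The `L`-span of an `F`-subspace of `L ^ 2`. -/
def lspan (V : Submodule F (Fin 2 → L)) : Submodule L (Fin 2 → L) := Submodule.span L (V : Set _)

theorem lspan_sup (U V : Submodule F (Fin 2 → L)) :
    lspan F L (U ⊔ V) = lspan F L U ⊔ lspan F L V := by
  apply le_antisymm
  · rw [lspan, Submodule.span_le]
    intro x hx
    obtain ⟨u, hu, v, hv, rfl⟩ := Submodule.mem_sup.1 hx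
    exact add_mem (Submodule.mem_sup_left (Submodule.subset_span hu))
      (Submodule.mem_sup_right (Submodule.subset_span hv))
  · exact sup_le (Submodule.span_mono (SetLike.coe_subset_coe.2 le_sup_left))
      (Submodule.span_mono (SetLike.coe_subset_coe.2 le_sup_right))

theorem lspan_mono {U V : Submodule F (Fin 2 → L)} (h : U ≤ V) : lspan F L U ≤ lspan F L V :=
  Submodule.span_mono (SetLike.coe_subset_coe.2 h)

theorem finrank_lspan_le [Finite F] [Finite L] (V : Submodule F (Fin 2 → L)) :
    finrank L (lspan F L V) ≤ finrank F V := by
  classical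
  have hfin : FiniteDimensional F V := Module.Finite.of_finite
  let b := Module.finBasis F V
  have h1 : lspan F L V ≤ Submodule.span L (Set.range fun i => (b i : Fin 2 → L)) := by
    rw [lspan, Submodule.span_le]
    intro x hx
    have h2 := b.sum_repr ⟨x, hx⟩
    have h3 : x = ((∑ i, (b.repr ⟨x, hx⟩) i • b i : V) : Fin 2 → L) := by rw [h2]
    rw [h3]
    simp only [AddSubmonoidClass.coe_finsetSum, Submodule.coe_smul, SetLike.mem_coe]
    refine Submodule.sum_mem _ fun i _ => ?_
    rw [algebra_compatible_smul L]
    exact Submodule.smul_mem _ _ (Submodule.subset_span ⟨i, rfl⟩)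
  refine (Submodule.finrank_mono h1).trans ?_
  refine (finrank_range_le_card (R := L) fun i => (b i : Fin 2 → L)).trans ?_
  simp

/-- The `q`-matroid of the Desarguesian spread: `ρ(V) = dim_L (L V)`. -/
noncomputable def spread [Finite F] [Finite L] : QMatroid F (Fin 2 → L) where
  rk V := finrank L (lspan F L V)
  rk_le V := finrank_lspan_le F L V
  mono U V h := Submodule.finrank_mono (lspan_mono F L h)
  submodular U V := by
    rw [lspan_sup]
    have h1 := Submodule.finrank_sup_add_finrank_inf_eq (lspan F L U) (lspan F L V)
    have h2 : finrank L (lspan F L (U ⊓ V)) ≤ finrank L (lspan F L U ⊓ lspan F L V : Submodule L _) :=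
      Submodule.finrank_mono (le_inf (lspan_mono F L inf_le_left) (lspan_mono F L inf_le_right))
    omega

/-- The `L`-line through a point. -/
noncomputable def toL (p : ℙ F (Fin 2 → L)) : ℙ L (Fin 2 → L) := Projectivization.mk L p.rep p.rep_nonzero

theorem lspan_iSup (A : Set (ℙ F (Fin 2 → L))) :
    lspan F L (⨆ p ∈ A, p.submodule) = ⨆ x ∈ toL F L '' A, x.submodule := by
  apply le_antisymm
  · rw [lspan, Submodule.span_le]
    have h : (⨆ p ∈ A, p.submodule) ≤
        (⨆ x ∈ toL F L '' A, x.submodule : Submodule L (Fin 2 → L)).restrictScalars F := by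
      refine iSup₂_le fun p hp => ?_
      have h1 : (toL F L p).submodule ≤
          (⨆ x ∈ toL F L '' A, x.submodule : Submodule L (Fin 2 → L)) :=
        le_iSup₂_of_le (toL F L p) ⟨p, hp, rfl⟩ le_rfl
      rw [Projectivization.submodule_eq, Submodule.span_singleton_le_iff_mem,
        Submodule.restrictScalars_mem]
      refine h1 ?_
      rw [toL, Projectivization.submodule_mk]
      exact Submodule.mem_span_singleton_self _
    exact h
  · refine iSup₂_le ?_
    rintro _ ⟨p, hp, rfl⟩
    rw [toL, Projectivization.submodule_mk, Submodule.span_singleton_le_iff_mem]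
    refine Submodule.subset_span ?_
    have h1 : p.submodule ≤ (⨆ p ∈ A, p.submodule) := le_iSup₂_of_le p hp le_rfl
    refine h1 ?_
    rw [Projectivization.submodule_eq]
    exact Submodule.mem_span_singleton_self _

theorem projRank_spread [Finite F] [Finite L] (A : Set (ℙ F (Fin 2 → L))) :
    projRank (spread F L) A = finrank L (⨆ x ∈ toL F L '' A, x.submodule : Submodule L _) := by
  rw [← lspan_iSup]
  rfl

end Spread

/-- The projectivization of the spread `q`-matroid is representable over every larger field. -/
theorem proj_representable (F L K : Type) [Field F] [Field L] [Field K] [Algebra F L] [Finite F]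
    [Finite L] [Finite K] (h : Nat.card L ≤ Nat.card K) :
    MatroidRepresentable K (projRank (spread F L)) := by
  classical
  have hcL : Nat.card (ℙ L (Fin 2 → L)) = Nat.card L + 1 :=
    Projectivization.card_of_finrank_two L _ (by simp)
  have hcK : Nat.card (ℙ K (Fin 2 → K)) = Nat.card K + 1 :=
    Projectivization.card_of_finrank_two K _ (by simp)
  have hfL : Finite (ℙ L (Fin 2 → L)) := inferInstance
  have hfK : Finite (ℙ K (Fin 2 → K)) := inferInstance
  have hfF : Finite (ℙ F (Fin 2 → L)) := inferInstance
  obtain ⟨j⟩ : Nonempty (ℙ L (Fin 2 → L) ↪ ℙ K (Fin 2 → K)) := by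
    have := Fintype.ofFinite (ℙ L (Fin 2 → L))
    have := Fintype.ofFinite (ℙ K (Fin 2 → K))
    refine Function.Embedding.nonempty_of_card_le ?_
    rw [← Nat.card_eq_fintype_card, ← Nat.card_eq_fintype_card, hcL, hcK]
    omega
  obtain ⟨N, ⟨e⟩⟩ := Finite.exists_equiv_fin (ℙ F (Fin 2 → L))
  refine ⟨2, N, Matrix.of fun i a => (j (toL F L (e.symm a))).rep i, e, fun A => ?_⟩
  have h1 : Submodule.span K ((fun a => (Matrix.of fun i a => (j (toL F L (e.symm a))).rep i :
      Matrix (Fin 2) (Fin N) K).col (e a)) '' A) =
      ⨆ y ∈ j '' (toL F L '' A), y.submodule := by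
    rw [Submodule.span_eq_iSup_of_singleton_spans, ← Set.image_comp, iSup_image, iSup_image]
    refine iSup_congr fun a => iSup_congr fun ha => ?_
    rw [Function.comp, Projectivization.submodule_eq]
    congr 2
    ext i
    simp [Matrix.col]
  rw [h1, projRank_spread, finrank_iSup, finrank_iSup]
  have h2 : j '' (toL F L '' A) = ∅ ↔ toL F L '' A = ∅ := Set.image_eq_empty
  have h3 : (j '' (toL F L '' A)).Subsingleton ↔ (toL F L '' A).Subsingleton :=
    ⟨fun h => Set.subsingleton_of_image j.injective _ h, fun h => h.image _⟩
  simp only [h2, h3]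

section NotRep

variable {F L K : Type} [Field F] [Field L] [Field K] [Algebra F L] [Algebra F K]
  {k n : ℕ} (G : Matrix (Fin k) (Fin n) K) (e : (Fin 2 → L) ≃ₗ[F] (Fin n → F))

/-- The `F`-linear map given by a matrix over `K`. -/
noncomputable def phi : (Fin 2 → L) →ₗ[F] (Fin k → K) where
  toFun v := G.mulVec fun i => algebraMap F K (e v i)
  map_add' v w := by
    rw [← Matrix.mulVec_add]
    congr 1
    ext i
    simp
  map_smul' c v := by
    rw [RingHom.id_apply, algebra_compatible_smul K c (G.mulVec _), ← Matrix.mulVec_smul]
    congr 1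
    ext i
    simp

theorem phi_mem (v : Fin 2 → L) : phi G e v ∈ Submodule.span K (Set.range G.col) := by
  change G.mulVec _ ∈ _
  have h : G.mulVec (fun i => algebraMap F K (e v i)) =
      ∑ i, (algebraMap F K (e v i)) • G.col i := by
    ext a
    simp only [Matrix.mulVec, dotProduct, Finset.sum_apply, Pi.smul_apply, smul_eq_mul,
      Matrix.col_apply]
    exact Finset.sum_congr rfl fun i _ => mul_comm _ _
  rw [h]
  refine Submodule.sum_mem _ fun i _ => ?_
  exact Submodule.smul_mem _ _ (Submodule.subset_span ⟨i, rfl⟩)

theorem rank_single (v : Fin 2 → L) :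
    (G * (Matrix.of fun i (_ : Fin 1) => e v i).map (algebraMap F K)).rank =
      finrank K (Submodule.span K {phi G e v}) := by
  rw [Matrix.rank_eq_finrank_span_cols]
  have : Set.range (G * (Matrix.of fun i (_ : Fin 1) => e v i).map (algebraMap F K)).col =
      {phi G e v} := by
    rw [Set.range_unique]
    rfl
  rw [this]

theorem rank_pair (v w : Fin 2 → L) :
    (G * (Matrix.of fun i (j : Fin 2) => e (![v, w] j) i).map (algebraMap F K)).rank =
      finrank K (Submodule.span K {phi G e v, phi G e w}) := by
  rw [Matrix.rank_eq_finrank_span_cols]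
  have : Set.range (G * (Matrix.of fun i (j : Fin 2) => e (![v, w] j) i).map
      (algebraMap F K)).col = {phi G e v, phi G e w} := by
    ext x
    simp only [Set.mem_range, Fin.exists_fin_two, Set.mem_insert_iff, Set.mem_singleton_iff]
    exact ⟨fun h => h.imp Eq.symm Eq.symm, fun h => h.imp Eq.symm Eq.symm⟩
  rw [this]

end NotRep

/-- The spread `q`-matroid of an extension of degree `m - 1` is not representable over an extension
of degree `m ≥ 3`. -/
theorem not_representable (F L K : Type) [Field F] [Field L] [Field K] [Algebra F L]
    [Algebra F K] [Finite F] [Finite L] [Finite K] (hm : 3 ≤ finrank F K)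
    (hL : finrank F L + 1 = finrank F K) : ¬ (spread F L).Representable K := by
  rintro ⟨k, n, G, e, hG⟩
  have hfdK : FiniteDimensional F K := Module.Finite.of_finite
  have hfdL : FiniteDimensional F L := Module.Finite.of_finite
  -- the rank of everything
  have htop : finrank K (Submodule.span K (Set.range G.col)) = 2 := by
    have h1 := hG ⊤ n 1 (by
      rw [Submodule.map_top, LinearMap.range_eq_top.2 e.surjective, eq_top_iff]
      intro x _
      have : x = ∑ i, x i • (1 : Matrix (Fin n) (Fin n) F).col i := by
        ext j
        simp [Matrix.one_apply]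
      rw [this]
      exact Submodule.sum_mem _ fun i _ => Submodule.smul_mem _ _ (Submodule.subset_span ⟨i, rfl⟩))
    rw [Matrix.map_one _ (map_zero _) (map_one _), Matrix.mul_one, Matrix.rank_eq_finrank_span_cols] at h1
    rw [← h1]
    change finrank L (lspan F L ⊤) = 2
    have h2 : lspan F L ⊤ = ⊤ := by
      rw [lspan, Submodule.top_coe, Submodule.span_univ]
    rw [h2, finrank_top]
    simp
  set U : Submodule K (Fin k → K) := Submodule.span K (Set.range G.col) with hU
  set φ := phi G e with hφ
  -- one and two vectors
  have hone : ∀ v : Fin 2 → L, finrank L (lspan F L (Submodule.span F {v})) =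
      finrank K (Submodule.span K {φ v}) := by
    intro v
    rw [hφ, ← rank_single]
    refine hG (Submodule.span F {v}) 1 _ ?_
    rw [Submodule.map_span, Set.image_singleton, Set.range_unique]
    rfl
  have htwo : ∀ v w : Fin 2 → L, finrank L (lspan F L (Submodule.span F {v, w})) =
      finrank K (Submodule.span K {φ v, φ w}) := by
    intro v w
    rw [hφ, ← rank_pair]
    refine hG (Submodule.span F {v, w}) 2 _ ?_
    rw [Submodule.map_span, Set.image_pair]
    congr 1
    ext x
    simp only [Set.mem_range, Fin.exists_fin_two, Set.mem_insert_iff, Set.mem_singleton_iff]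
    exact ⟨fun h => h.imp Eq.symm Eq.symm, fun h => h.imp Eq.symm Eq.symm⟩
  have hlspan : ∀ S : Set (Fin 2 → L), lspan F L (Submodule.span F S) = Submodule.span L S := by
    intro S
    apply le_antisymm
    · rw [lspan, Submodule.span_le]
      exact Submodule.span_subset_span F L S
    · exact Submodule.span_mono Submodule.subset_span
  -- the map is injective
  have hinj : Function.Injective φ := by
    rw [injective_iff_map_eq_zero]
    intro v hv
    by_contra hv0
    have h1 := hone v
    rw [hv, hlspan, finrank_span_singleton hv0, Submodule.span_zero_singleton, finrank_bot] at h1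
    exact one_ne_zero h1
  have hWdim : finrank F (LinearMap.range φ) = 2 * finrank F L := by
    rw [LinearMap.finrank_range_of_inj hinj, Module.finrank_pi_fintype]
    simp [two_mul]
  have hUdim : finrank F U = 2 * finrank F K := by
    rw [← Module.finrank_mul_finrank F K U, htop, mul_comm]
  -- every line of `U` contains the image of a nonzero vector
  have hline : ∀ x : ℙ K U, ∃ v : Fin 2 → L, v ≠ 0 ∧
      φ v ∈ x.submodule.map U.subtype := by
    intro x
    set ℓ : Submodule F (Fin k → K) := (x.submodule.map U.subtype).restrictScalars F with hℓ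
    have hℓdim : finrank F ℓ = finrank F K := by
      have h1 : finrank K (x.submodule.map U.subtype) = 1 := by
        rw [Submodule.finrank_map_subtype_eq]
        exact x.finrank_submodule
      change finrank F (x.submodule.map U.subtype) = finrank F K
      rw [← Module.finrank_mul_finrank F K (x.submodule.map U.subtype), h1, mul_one]
    have hℓU : ℓ ≤ U.restrictScalars F := by
      intro z hz
      obtain ⟨y, -, rfl⟩ := hz
      exact y.2
    have hWU : LinearMap.range φ ≤ U.restrictScalars F := by
      rintro _ ⟨z, rfl⟩
      exact phi_mem G e z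
    have h1 := Submodule.finrank_sup_add_finrank_inf_eq ℓ (LinearMap.range φ)
    have h2 : finrank F (ℓ ⊔ LinearMap.range φ : Submodule F (Fin k → K)) ≤ finrank F U :=
      Submodule.finrank_mono (sup_le hℓU hWU)
    have h3 : 0 < finrank F (ℓ ⊓ LinearMap.range φ : Submodule F (Fin k → K)) := by omega
    rw [Module.finrank_pos_iff_exists_ne_zero] at h3
    obtain ⟨⟨z, hz⟩, hz0⟩ := h3
    obtain ⟨hz1, ⟨w, rfl⟩⟩ := hz
    refine ⟨w, ?_, hz1⟩
    rintro rfl
    exact hz0 (Subtype.ext (map_zero φ))
  choose v hv0 hv using hline
  have hcard : Nat.card (ℙ K U) ≤ Nat.card (ℙ L (Fin 2 → L)) := by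
    refine Nat.card_le_card_of_injective (fun x => Projectivization.mk L (v x) (hv0 x)) ?_
    intro x y hxy
    simp only [Projectivization.mk_eq_mk_iff'] at hxy
    obtain ⟨c, hc⟩ := hxy
    have h1 := htwo (v x) (v y)
    have h2 : Submodule.span L {v x, v y} = Submodule.span L {v y} := by
      rw [← hc]
      exact Submodule.span_insert_eq_span (Submodule.smul_mem _ _ (Submodule.mem_span_singleton_self _))
    rw [hlspan, h2, finrank_span_singleton (hv0 y)] at h1
    have hφ0 : ∀ z, φ (v z) ≠ 0 := fun z h => hv0 z (hinj (by rw [h, map_zero]))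
    have h3 : ∀ z ∈ ({φ (v x), φ (v y)} : Set (Fin k → K)), z ≠ 0 →
        Submodule.span K {z} = Submodule.span K {φ (v x), φ (v y)} := by
      intro z hz hz0
      refine Submodule.eq_of_le_of_finrank_le (Submodule.span_mono (by simpa using hz)) ?_
      rw [finrank_span_singleton hz0, ← h1]
    have h4 := h3 (φ (v x)) (by simp) (hφ0 x)
    have h5 := h3 (φ (v y)) (by simp) (hφ0 y)
    have h6 : ∀ z : ℙ K U, Submodule.span K {φ (v z)} = z.submodule.map U.subtype := by
      intro z
      refine Submodule.eq_of_le_of_finrank_le ?_ ?_
      · rw [Submodule.span_singleton_le_iff_mem]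
        exact hv z
      · rw [finrank_span_singleton (hφ0 z), Submodule.finrank_map_subtype_eq]
        exact z.finrank_submodule.le
    have h7 : x.submodule.map U.subtype = y.submodule.map U.subtype := by
      rw [← h6, ← h6, h4, h5]
    exact Projectivization.submodule_injective (Submodule.map_injective_of_injective U.injective_subtype h7)
  rw [Projectivization.card_of_finrank_two K U htop,
    Projectivization.card_of_finrank_two L _ (by simp)] at hcard
  have h1 : Nat.card K = Nat.card F ^ finrank F K := Module.natCard_eq_pow_finrank
  have h2 : Nat.card L = Nat.card F ^ finrank F L := Module.natCard_eq_pow_finrank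
  have h3 : Nat.card F ^ finrank F L < Nat.card F ^ finrank F K :=
    Nat.pow_lt_pow_right Finite.one_lt_card (by omega)
  omega

/-- **Q1 fails for every finite field `F` and every extension `K` of `F` of degree at least
three.** -/
theorem result (F K : Type) [Field F] [Finite F] [Field K] [Algebra F K]
    (hm : 3 ≤ finrank F K) :
    ∃ (E : Type) (_ : AddCommGroup E) (_ : Module F E) (_ : FiniteDimensional F E)
      (M : QMatroid F E), MatroidRepresentable K (projRank M) ∧ ¬ M.Representable K := by
  have hfd : FiniteDimensional F K := FiniteDimensional.of_finrank_pos (by omega)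
  have hfK : Finite K := Module.finite_of_finite F
  obtain ⟨p, hp⟩ := CharP.exists F
  have hprime : Fact p.Prime := ⟨CharP.char_is_prime F p⟩
  have hne : NeZero (finrank F K - 1) := ⟨by omega⟩
  let L := FiniteField.Extension F p (finrank F K - 1)
  have h1 : finrank F L = finrank F K - 1 := FiniteField.finrank_extension F p _
  refine ⟨Fin 2 → L, inferInstance, inferInstance, inferInstance, spread F L,
    proj_representable F L K ?_, not_representable F L K hm (by omega)⟩
  rw [FiniteField.natCard_extension]
  have h2 : Nat.card K = Nat.card F ^ finrank F K := Module.natCard_eq_pow_finrank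
  rw [h2]
  exact Nat.pow_le_pow_right Nat.card_pos (by omega)

end Pool.Agent.Results.MP_4d2e3d_co.EveryFieldDegreeThree
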